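import Mathlib
import Pool.Agent.Lib.MP_80eea4_gt.Own

/-!
The class of the local algebra of an equivariant polynomial map in the representation ring.
-/

set_option autoImplicit false

namespace Pool.Agent.Results.MP_80eea4_gt.RepresentationForm

open MvPowerSeries

variable {n : ℕ}

/-- The linear form `(M x)_i`. -/
noncomputable def lin (M : Matrix (Fin n) (Fin n) ℂ) (i : Fin n) : MvPowerSeries (Fin n) ℂ :=
  ∑ j, M i j • X j

theorem hasSubst_lin (M : Matrix (Fin n) (Fin n) ℂ) : HasSubst (lin M) := by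
  apply hasSubst_of_constantCoeff_zero
  intro i
  simp [lin, constantCoeff_smul]

/-- `h(x) ↦ h(M x)` on power series. -/
noncomputable def pull (M : Matrix (Fin n) (Fin n) ℂ) :
    MvPowerSeries (Fin n) ℂ →ₐ[ℂ] MvPowerSeries (Fin n) ℂ :=
  substAlgHom (hasSubst_lin M)

/-- The ideal `(f_1, ..., f_n)` of `ℂ[[x_1, ..., x_n]]`. -/
noncomputable def fIdeal (f : Fin n → MvPolynomial (Fin n) ℂ) : Ideal (MvPowerSeries (Fin n) ℂ) :=
  Ideal.span (Set.range fun i => (f i : MvPowerSeries (Fin n) ℂ))

/-- The multiplicity at `0` of the restriction of `f` to the fixed space of `H`: the dimension of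
`ℂ[[x]] / (f, h x - x : h ∈ H)`. -/
noncomputable def fixedDegree {G : Type*} [Group G] (ρ : G →* Matrix (Fin n) (Fin n) ℂ)
    (f : Fin n → MvPolynomial (Fin n) ℂ) (H : Subgroup G) : ℕ :=
  Module.finrank ℂ (MvPowerSeries (Fin n) ℂ ⧸
    (fIdeal f ⊔ Ideal.span {s | ∃ h ∈ H, ∃ i, s = lin (ρ h) i - X i}))

/-- `f(M x) = M f(x)` for all the matrices of `ρ`. -/
def Equivariant {G : Type*} [Group G] (ρ : G →* Matrix (Fin n) (Fin n) ℂ)
    (f : Fin n → MvPolynomial (Fin n) ℂ) : Prop :=
  ∀ g i, MvPolynomial.bind₁ (fun j => ∑ k, ρ g j k • (MvPolynomial.X k : MvPolynomial (Fin n) ℂ))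
    (f i) = ∑ j, ρ g i j • f j

theorem lin_one (i : Fin n) : lin (1 : Matrix (Fin n) (Fin n) ℂ) i = X i := by
  rw [lin, Finset.sum_eq_single i]
  · rw [Matrix.one_apply_eq, one_smul]
  · intro j _ hj
    rw [Matrix.one_apply_ne hj.symm, zero_smul]
  · intro h
    exact absurd (Finset.mem_univ i) h

theorem lin_mul (M N : Matrix (Fin n) (Fin n) ℂ) (i : Fin n) :
    lin (M * N) i = ∑ j, M i j • lin N j := by
  simp only [lin, Matrix.mul_apply, Finset.smul_sum, Finset.sum_smul, smul_smul]
  rw [Finset.sum_comm]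

theorem pull_X (M : Matrix (Fin n) (Fin n) ℂ) (i : Fin n) : pull M (X i) = lin M i :=
  substAlgHom_X (hasSubst_lin M) i

theorem pull_lin (M N : Matrix (Fin n) (Fin n) ℂ) (i : Fin n) :
    pull M (lin N i) = lin (N * M) i := by
  rw [lin_mul, lin, map_sum]
  exact Finset.sum_congr rfl fun j _ => by rw [map_smul, pull_X]

theorem pull_pull (M N : Matrix (Fin n) (Fin n) ℂ) (h : MvPowerSeries (Fin n) ℂ) :
    pull M (pull N h) = pull (N * M) h := by
  have h1 := substAlgHom_comp_substAlgHom_apply (hasSubst_lin N) (hasSubst_lin M) h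
  have h2 : (fun i => subst (lin M) (lin N i)) = lin (N * M) := by
    funext i
    have := pull_lin M N i
    rw [pull, substAlgHom_apply] at this
    exact this
  rw [pull, pull, pull, h1]
  simp only [substAlgHom_apply, h2]

theorem pull_one (h : MvPowerSeries (Fin n) ℂ) : pull 1 h = h := by
  have h2 : lin (1 : Matrix (Fin n) (Fin n) ℂ) = X := funext lin_one
  rw [pull, substAlgHom_apply, h2]
  exact congrFun subst_self h

section
variable {G : Type*} [Group G] {ρ : G →* Matrix (Fin n) (Fin n) ℂ}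
  {f : Fin n → MvPolynomial (Fin n) ℂ}

theorem pull_f (hf : Equivariant ρ f) (g : G) (i : Fin n) :
    pull (ρ g) (f i : MvPowerSeries (Fin n) ℂ) = ∑ j, ρ g i j • (f j : MvPowerSeries (Fin n) ℂ) := by
  have hcoe : ∀ p : MvPolynomial (Fin n) ℂ,
      MvPolynomial.coeToMvPowerSeries.algHom ℂ p = (p : MvPowerSeries (Fin n) ℂ) := by
    intro p
    rw [MvPolynomial.coeToMvPowerSeries.algHom_apply, Algebra.algebraMap_self, map_id]
    rfl
  have h1 : pull (ρ g) (f i : MvPowerSeries (Fin n) ℂ) = MvPolynomial.aeval (lin (ρ g)) (f i) :=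
    substAlgHom_coe (hasSubst_lin (ρ g)) (f i)
  have h2 : lin (ρ g) = fun j => MvPolynomial.coeToMvPowerSeries.algHom ℂ
      (∑ k : Fin n, ρ g j k • (MvPolynomial.X k : MvPolynomial (Fin n) ℂ)) := by
    funext j
    rw [map_sum, lin]
    refine Finset.sum_congr rfl fun k _ => ?_
    rw [map_smul, hcoe, MvPolynomial.coe_X]
  have h3 := hf g i
  rw [MvPolynomial.bind₁] at h3
  rw [h1, h2, ← MvPolynomial.comp_aeval_apply, h3, map_sum]
  refine Finset.sum_congr rfl fun k _ => ?_
  rw [map_smul, hcoe]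

theorem stable (hf : Equivariant ρ f) (g : G) : fIdeal f ≤ (fIdeal f).comap (pull (ρ g)) := by
  rw [fIdeal, Ideal.span_le]
  rintro _ ⟨i, rfl⟩
  rw [SetLike.mem_coe, Ideal.mem_comap, pull_f hf]
  refine Ideal.sum_mem _ fun j _ => ?_
  rw [Algebra.smul_def]
  exact Ideal.mul_mem_left _ _ (Ideal.subset_span ⟨j, rfl⟩)

/-- The action `(g h)(x) = h(g⁻¹ x)` on the local algebra. -/
noncomputable def action (hf : Equivariant ρ f) :
    Representation ℂ G (MvPowerSeries (Fin n) ℂ ⧸ fIdeal f) where
  toFun g := (Ideal.quotientMapₐ (fIdeal f) (pull (ρ g⁻¹)) (stable hf g⁻¹)).toLinearMap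
  map_one' := by
    ext v
    obtain ⟨s, rfl⟩ := Ideal.Quotient.mk_surjective v
    show Ideal.Quotient.mk _ (pull (ρ 1⁻¹) s) = _
    rw [inv_one, map_one, pull_one]
    rfl
  map_mul' a b := by
    ext v
    obtain ⟨s, rfl⟩ := Ideal.Quotient.mk_surjective v
    show Ideal.Quotient.mk _ (pull (ρ (a * b)⁻¹) s) =
      Ideal.Quotient.mk _ (pull (ρ a⁻¹) (pull (ρ b⁻¹) s))
    rw [pull_pull, mul_inv_rev, map_mul]

theorem action_mk (hf : Equivariant ρ f) (g : G) (s : MvPowerSeries (Fin n) ℂ) :
    action hf g (Ideal.Quotient.mk _ s) = Ideal.Quotient.mk _ (pull (ρ g⁻¹) s) := rfl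

theorem fixed_ideal (ρ : G →* Matrix (Fin n) (Fin n) ℂ) (g : G) :
    Ideal.span {s | ∃ h ∈ Subgroup.zpowers g, ∃ i, s = lin (ρ h) i - X i} =
      Ideal.span (Set.range fun i : Fin n => ∑ j : Fin n,
        (ρ g⁻¹ - 1) i j • (X j : MvPowerSeries (Fin n) ℂ)) := by
  have hsub : ∀ (M : Matrix (Fin n) (Fin n) ℂ) i, ∑ j : Fin n,
      (M - 1) i j • (X j : MvPowerSeries (Fin n) ℂ) = lin M i - X i := by
    intro M i
    rw [← lin_one i]
    simp only [lin, Matrix.sub_apply, sub_smul, Finset.sum_sub_distrib]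
  simp only [hsub]
  refine le_antisymm (Ideal.span_le.2 ?_) (Ideal.span_le.2 ?_)
  · let I : Ideal (MvPowerSeries (Fin n) ℂ) :=
      Ideal.span (Set.range fun i : Fin n => lin (ρ g⁻¹) i - X i)
    have hlin : ∀ (M N : Matrix (Fin n) (Fin n) ℂ), (∀ i, lin N i - X i ∈ I) → ∀ i,
        lin (M * N) i - lin M i ∈ I := by
      intro M N hN i
      have h1 : lin (M * N) i - lin M i = ∑ j, M i j • (lin N j - X j) := by
        rw [lin_mul]
        conv_lhs => rw [lin]
        simp only [smul_sub, Finset.sum_sub_distrib]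
      rw [h1]
      refine Ideal.sum_mem _ fun j _ => ?_
      rw [Algebra.smul_def]
      exact Ideal.mul_mem_left _ _ (hN j)
    let K : Subgroup G :=
      { carrier := {h | ∀ i, lin (ρ h) i - X i ∈ I}
        mul_mem' := by
          intro a b ha hb i
          have h1 := hlin (ρ a) (ρ b) hb i
          rw [map_mul]
          have h2 := Ideal.add_mem _ h1 (ha i)
          rwa [sub_add_sub_cancel] at h2
        one_mem' := by
          intro i
          rw [map_one, lin_one, sub_self]
          exact I.zero_mem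
        inv_mem' := by
          intro a ha i
          have h1 := hlin (ρ a⁻¹) (ρ a) ha i
          rw [← map_mul, inv_mul_cancel, map_one, lin_one] at h1
          have h2 := I.neg_mem h1
          rwa [neg_sub] at h2 }
    have hg : g ∈ K := by
      rw [← inv_mem_iff]
      exact fun i => Ideal.subset_span ⟨i, rfl⟩
    rintro _ ⟨h, hh, i, rfl⟩
    exact (Subgroup.zpowers_le.2 hg : Subgroup.zpowers g ≤ K) hh i
  · rintro _ ⟨i, rfl⟩
    exact Ideal.subset_span ⟨g⁻¹, inv_mem (Subgroup.mem_zpowers g), i, rfl⟩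

theorem char_action [Finite G] (hf : Equivariant ρ f)
    (h0 : ∀ i, MvPolynomial.constantCoeff (f i) = 0)
    (hfin : Module.Finite ℂ (MvPowerSeries (Fin n) ℂ ⧸ fIdeal f)) (g : G) :
    (action hf).character g = fixedDegree ρ f (Subgroup.zpowers g) := by
  have hM : (ρ g⁻¹) ^ (Nat.card G) = 1 := by
    rw [← map_pow, pow_card_eq_one', map_one]
  have h1 := Pool.Agent.Lib.MP_80eea4_gt.Own.trace_formula (ρ g⁻¹) (Nat.card G)
    Nat.card_pos.ne' hM f (hf g⁻¹) h0 hfin
    (Ideal.quotientMapₐ (fIdeal f) (pull (ρ g⁻¹)) (stable hf g⁻¹))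
    (fun i => congrArg (Ideal.Quotient.mk (fIdeal f)) (pull_X (ρ g⁻¹) i))
  refine h1.trans ?_
  rw [fixedDegree, fixed_ideal, fIdeal, ← Ideal.span_union]

end

theorem char_perm {G A : Type*} [Group G] [Finite A] [MulAction G A] (g : G) :
    (Representation.ofMulAction ℂ G A).character g =
      (Nat.card (MulAction.fixedBy A g) : ℂ) := by
  classical
  have := Fintype.ofFinite A
  rw [Representation.character, LinearMap.trace_eq_matrix_trace ℂ (MonoidAlgebra.basis A ℂ),
    Matrix.trace]
  have h1 : ∀ a : A, Matrix.diag (LinearMap.toMatrix (MonoidAlgebra.basis A ℂ)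
      (MonoidAlgebra.basis A ℂ) (Representation.ofMulAction ℂ G A g)) a =
      if g • a = a then 1 else 0 := by
    intro a
    rw [Matrix.diag_apply, LinearMap.toMatrix_apply, MonoidAlgebra.basis_apply,
      Representation.ofMulAction_single, ← MonoidAlgebra.basis_apply, Module.Basis.repr_self,
      Finsupp.single_apply]
  rw [Finset.sum_congr rfl fun a _ => h1 a, Finset.sum_boole, Nat.card_eq_fintype_card,
    Fintype.card_subtype]
  rfl

theorem fixedPoints_zpowers {G A : Type*} [Group G] [MulAction G A] (g : G) :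
    (MulAction.fixedPoints (Subgroup.zpowers g) A : Set A) = MulAction.fixedBy A g := by
  ext c
  constructor
  · intro h
    exact h ⟨g, Subgroup.mem_zpowers g⟩
  · rintro h ⟨_, k, rfl⟩
    exact MulAction.mem_fixedBy_zpow h k

/-- Let a finite group `G` act linearly on `ℂ^n` (through the matrices `ρ g`), let the polynomial
map `f` be `G`-equivariant with `f(0) = 0` and `Q(f) = ℂ[[x]] / (f)` finite-dimensional. Then
`(g h)(x) = h(g⁻¹ x)` is a representation of `G` on `Q(f)`, its character at `g` is the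
multiplicity at `0` of `f` restricted to the fixed space of `g`, and for all finite `G`-sets `A`,
`B` for which `|A^g| - |B^g|` is this multiplicity for every `g`, the class of `Q(f)` is that of
the virtual permutation representation `ℂ[A] - ℂ[B]`. -/
theorem result (G : Type*) [Group G] [Finite G] (n : ℕ) (ρ : G →* Matrix (Fin n) (Fin n) ℂ)
    (f : Fin n → MvPolynomial (Fin n) ℂ) (hf : Equivariant ρ f)
    (h0 : ∀ i, MvPolynomial.constantCoeff (f i) = 0)
    (hfin : Module.Finite ℂ (MvPowerSeries (Fin n) ℂ ⧸ fIdeal f)) :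
    ∃ σ : Representation ℂ G (MvPowerSeries (Fin n) ℂ ⧸ fIdeal f),
      (∀ g h, σ g (Ideal.Quotient.mk (fIdeal f) h) =
        Ideal.Quotient.mk (fIdeal f) (pull (ρ g⁻¹) h)) ∧
      (∀ g, σ.character g = fixedDegree ρ f (Subgroup.zpowers g)) ∧
      ∀ (A B : Type*) [Finite A] [Finite B] [MulAction G A] [MulAction G B],
        (∀ g : G, Nat.card (MulAction.fixedPoints (Subgroup.zpowers g) A) =
          Nat.card (MulAction.fixedPoints (Subgroup.zpowers g) B) +
            fixedDegree ρ f (Subgroup.zpowers g)) →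
        ∀ g, σ.character g + (Representation.ofMulAction ℂ G B).character g =
          (Representation.ofMulAction ℂ G A).character g := by
  refine ⟨action hf, fun g h => rfl, char_action hf h0 hfin, ?_⟩
  intro A B _ _ _ _ hAB g
  rw [char_action hf h0 hfin, char_perm, char_perm]
  have h1 := hAB g
  rw [fixedPoints_zpowers, fixedPoints_zpowers] at h1
  rw [h1]
  push_cast
  ring

end Pool.Agent.Results.MP_80eea4_gt.RepresentationForm
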